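import Mathlib

/-!
# EQL-3: the alternating sum as a function on the unit disc

`v = exp(-2 κ ζ)`, `m = exp κ`, `q = m^(-2)`; `cosh(κ(ζ+k)) / cosh(κ ζ) =
m^k (1 + q^k v) / (1 + v)`.  `phi e m k v = (cosh(κ ζ) / cosh(κ (ζ + k)))^e` and
`fD e m v = ∑_{k ≥ 0} (-1)^k phi e m k v` (the term `k = 0` is `1`, also at `v = -1`).
-/

namespace Pool.Agent.helper12.EQL

open Set Metric Filter Topology ComplexConjugate

/-- `q^k = m^(-2k)`. -/
noncomputable def qk (m : ℝ) (k : ℕ) : ℝ := (m ^ (2 * k))⁻¹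

noncomputable def phi (e m : ℝ) (k : ℕ) (v : ℂ) : ℂ :=
  ((m ^ (-(e * k)) : ℝ) : ℂ) * ((1 + v) / (1 + (qk m k : ℂ) * v)) ^ (e : ℂ)

noncomputable def fD (e m : ℝ) (v : ℂ) : ℂ := 1 - ∑' k : ℕ, (-1) ^ k * phi e m (k + 1) v

theorem qk_pos {m : ℝ} (hm : 1 < m) (k : ℕ) : 0 < qk m k := by
  unfold qk
  have : 0 < m := by linarith
  positivity

theorem qk_le_one {m : ℝ} (hm : 1 < m) (k : ℕ) : qk m k ≤ 1 := by
  unfold qk
  exact inv_le_one_of_one_le₀ (one_le_pow₀ hm.le)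

theorem qk_succ_lt_one {m : ℝ} (hm : 1 < m) (k : ℕ) : qk m (k + 1) < 1 := by
  unfold qk
  exact inv_lt_one_of_one_lt₀ (one_lt_pow₀ hm (by omega))

theorem qk_add (m : ℝ) (j k : ℕ) : qk m (j + k) = qk m j * qk m k := by
  unfold qk
  rw [mul_add, pow_add, mul_inv]

/-- `1 + q^(k+1) v ≠ 0` on the closed disc. -/
theorem one_add_qk_mul_ne {m : ℝ} (hm : 1 < m) (k : ℕ) {v : ℂ} (hv : ‖v‖ ≤ 1) :
    1 + (qk m (k + 1) : ℂ) * v ≠ 0 := by
  intro h
  have h1 : (qk m (k + 1) : ℂ) * v = -1 := by linear_combination h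
  have h2 : ‖(qk m (k + 1) : ℂ) * v‖ = 1 := by rw [h1]; simp
  rw [norm_mul, Complex.norm_real, Real.norm_of_nonneg (qk_pos hm _).le] at h2
  have h3 := qk_succ_lt_one hm k
  have h4 := qk_pos hm (k + 1)
  nlinarith [norm_nonneg v]

/-- `Re ((1+v)/(1+q^k v)) > 0` for `‖v‖ ≤ 1`, `v ≠ -1`: the numerator of the real part is
`1 + q^k |v|² + (1+q^k) re v ≥ (1-|v|)(1-q^k|v|)`, and equality to `0` forces `v = -1`. -/
theorem ratio_re_pos {m : ℝ} (hm : 1 < m) (k : ℕ) {v : ℂ} (hv : ‖v‖ ≤ 1) (hv1 : v ≠ -1) :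
    0 < ((1 + v) / (1 + (qk m (k + 1) : ℂ) * v)).re := by
  set q := qk m (k + 1) with hq
  have hq0 : 0 < q := qk_pos hm _
  have hq1 : q < 1 := qk_succ_lt_one hm k
  have hne := one_add_qk_mul_ne hm k hv
  rw [← hq] at hne
  have hN : 0 < Complex.normSq (1 + (q : ℂ) * v) := Complex.normSq_pos.2 hne
  have hv2 : v.re ^ 2 + v.im ^ 2 ≤ 1 := by
    have h1 : v.re ^ 2 + v.im ^ 2 = ‖v‖ ^ 2 := by
      rw [Complex.sq_norm, Complex.normSq_apply]
      ring
    rw [h1]
    nlinarith [norm_nonneg v]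
  have hx : -1 < v.re := by
    by_contra hcon
    have hle : v.re ≤ -1 := not_lt.1 hcon
    have h2 : v.im = 0 := by nlinarith [sq_nonneg v.im]
    have h3 : v.re = -1 := by nlinarith [sq_nonneg v.im]
    exact hv1 (Complex.ext (by simp [h3]) (by simp [h2]))
  rw [Complex.div_re, ← add_div]
  refine div_pos ?_ hN
  have e1 : (1 + v).re = 1 + v.re := by simp
  have e2 : (1 + v).im = v.im := by simp
  have e3 : (1 + (q : ℂ) * v).re = 1 + q * v.re := by simp
  have e4 : (1 + (q : ℂ) * v).im = q * v.im := by simp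
  rw [e1, e2, e3, e4]
  have h5 : 0 < (1 + v.re) * (1 + q * v.re) := by
    apply mul_pos (by linarith)
    nlinarith
  have h6 : 0 ≤ v.im * (q * v.im) := by nlinarith [sq_nonneg v.im]
  linarith

/-- Bound: `‖phi e m (k+1) v‖ ≤ m^(-e(k+1)) (2/(1 - m^(-2)))^e` on the closed disc. -/
theorem norm_phi_le {e m : ℝ} (he : 0 < e) (hm : 1 < m) (k : ℕ) {v : ℂ} (hv : ‖v‖ ≤ 1) :
    ‖phi e m (k + 1) v‖ ≤ (m ^ (-e)) ^ (k + 1) * (2 / (1 - qk m 1)) ^ e := by
  have hm0 : 0 < m := by linarith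
  have hq1 : 0 < 1 - qk m 1 := by
    have := qk_succ_lt_one hm 0
    simpa using this
  unfold phi
  rw [norm_mul, Complex.norm_real, Complex.norm_cpow_real,
    Real.norm_of_nonneg (Real.rpow_nonneg hm0.le _)]
  have h1 : m ^ (-(e * ((k + 1 : ℕ) : ℝ))) = (m ^ (-e)) ^ (k + 1) := by
    rw [← Real.rpow_natCast, ← Real.rpow_mul hm0.le]
    congr 1
    ring
  rw [h1]
  refine mul_le_mul_of_nonneg_left ?_ (by positivity)
  refine Real.rpow_le_rpow (norm_nonneg _) ?_ he.le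
  rw [norm_div]
  have h2 : ‖1 + v‖ ≤ 2 := by
    refine (norm_add_le _ _).trans ?_
    rw [norm_one]
    linarith
  have h3 : qk m (k + 1) ≤ qk m 1 := by
    rw [add_comm k 1, qk_add]
    have h4 := qk_le_one hm k
    have h5 := qk_pos hm 1
    nlinarith
  have h4 : 1 - qk m 1 ≤ ‖1 + (qk m (k + 1) : ℂ) * v‖ := by
    have h5 : (1 : ℝ) ≤ ‖1 + (qk m (k + 1) : ℂ) * v‖ + ‖(qk m (k + 1) : ℂ) * v‖ := by
      have h6 := norm_sub_le (1 + (qk m (k + 1) : ℂ) * v) ((qk m (k + 1) : ℂ) * v)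
      rw [add_sub_cancel_right, norm_one] at h6
      exact h6
    have h7 : ‖(qk m (k + 1) : ℂ) * v‖ ≤ qk m 1 := by
      rw [norm_mul, Complex.norm_real, Real.norm_of_nonneg (qk_pos hm _).le]
      have h8 := qk_pos hm (k + 1)
      nlinarith [norm_nonneg v]
    linarith
  exact div_le_div₀ (by norm_num) h2 hq1 h4

theorem summable_norm_phi {e m : ℝ} (he : 0 < e) (hm : 1 < m) {v : ℂ} (hv : ‖v‖ ≤ 1) :
    Summable fun k : ℕ => ‖phi e m (k + 1) v‖ := by
  have hr0 : 0 ≤ m ^ (-e) := Real.rpow_nonneg (by linarith) _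
  have hr1 : m ^ (-e) < 1 := Real.rpow_lt_one_of_one_lt_of_neg hm (by linarith)
  refine Summable.of_nonneg_of_le (fun k => norm_nonneg _) (fun k => norm_phi_le he hm k hv) ?_
  exact ((summable_nat_add_iff 1).2 (summable_geometric_of_lt_one hr0 hr1)).mul_right _

theorem continuousOn_phi {e m : ℝ} (he : 0 < e) (hm : 1 < m) (k : ℕ) :
    ContinuousOn (phi e m (k + 1)) (closedBall 0 1) := by
  intro v hv
  rw [mem_closedBall, dist_zero_right] at hv
  unfold phi
  refine ContinuousWithinAt.mul continuousWithinAt_const ?_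
  have hne := one_add_qk_mul_ne hm k hv
  have hbase : ContinuousAt (fun v : ℂ => (1 + v) / (1 + (qk m (k + 1) : ℂ) * v)) v :=
    ContinuousAt.div (by fun_prop) (by fun_prop) hne
  have hre : 0 ≤ ((1 + v) / (1 + (qk m (k + 1) : ℂ) * v)).re := by
    by_cases hv1 : v = -1
    · rw [hv1]
      simp
    · exact (ratio_re_pos hm k hv hv1).le
  have hc := Complex.continuousAt_cpow_const_of_re_pos (w := (e : ℂ)) (Or.inl hre)
    (by rw [Complex.ofReal_re]; exact he)
  have hcomp : ContinuousAt ((fun z : ℂ => z ^ (e : ℂ)) ∘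
      fun v : ℂ => (1 + v) / (1 + (qk m (k + 1) : ℂ) * v)) v := ContinuousAt.comp hc hbase
  exact hcomp.continuousWithinAt

/-- On `{‖v‖ ≤ 1, v ≠ -1}` (in fact on a neighbourhood) `phi` is analytic. -/
theorem differentiableAt_phi {e m : ℝ} (hm : 1 < m) (k : ℕ) {v : ℂ} (hv : ‖v‖ ≤ 1)
    (hv1 : v ≠ -1) : DifferentiableAt ℂ (phi e m (k + 1)) v := by
  unfold phi
  have hne := one_add_qk_mul_ne hm k hv
  have hbase : DifferentiableAt ℂ (fun v : ℂ => (1 + v) / (1 + (qk m (k + 1) : ℂ) * v)) v :=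
    DifferentiableAt.div (by fun_prop) (by fun_prop) hne
  refine DifferentiableAt.mul (differentiableAt_const _) ?_
  exact hbase.cpow (differentiableAt_const _)
    (Complex.mem_slitPlane_iff.2 (Or.inl (ratio_re_pos hm k hv hv1)))

theorem continuousOn_fD {e m : ℝ} (he : 0 < e) (hm : 1 < m) :
    ContinuousOn (fD e m) (closedBall 0 1) := by
  have hr0 : 0 ≤ m ^ (-e) := Real.rpow_nonneg (by linarith) _
  have hr1 : m ^ (-e) < 1 := Real.rpow_lt_one_of_one_lt_of_neg hm (by linarith)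
  have hu : Summable fun k : ℕ => (m ^ (-e)) ^ (k + 1) * (2 / (1 - qk m 1)) ^ e :=
    ((summable_nat_add_iff 1).2 (summable_geometric_of_lt_one hr0 hr1)).mul_right _
  unfold fD
  refine continuousOn_const.sub (continuousOn_tsum (fun k => ?_) hu ?_)
  · exact continuousOn_const.mul (continuousOn_phi he hm k)
  · intro k v hv
    rw [mem_closedBall, dist_zero_right] at hv
    rw [norm_mul, norm_pow, norm_neg, norm_one, one_pow, one_mul]
    exact norm_phi_le he hm k hv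

theorem differentiableOn_fD {e m : ℝ} (he : 0 < e) (hm : 1 < m) :
    DifferentiableOn ℂ (fD e m) (ball 0 1) := by
  have hr0 : 0 ≤ m ^ (-e) := Real.rpow_nonneg (by linarith) _
  have hr1 : m ^ (-e) < 1 := Real.rpow_lt_one_of_one_lt_of_neg hm (by linarith)
  have hu : Summable fun k : ℕ => (m ^ (-e)) ^ (k + 1) * (2 / (1 - qk m 1)) ^ e :=
    ((summable_nat_add_iff 1).2 (summable_geometric_of_lt_one hr0 hr1)).mul_right _
  unfold fD
  refine (differentiableOn_const _).sub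
    (Complex.differentiableOn_tsum_of_summable_norm hu (fun k => ?_) isOpen_ball ?_)
  · refine (differentiableOn_const _).mul fun v hv => ?_
    rw [mem_ball, dist_zero_right] at hv
    refine (differentiableAt_phi hm k hv.le ?_).differentiableWithinAt
    rintro rfl
    rw [norm_neg, norm_one] at hv
    exact lt_irrefl _ hv
  · intro k v hv
    rw [mem_ball, dist_zero_right] at hv
    rw [norm_mul, norm_pow, norm_neg, norm_one, one_pow, one_mul]
    exact norm_phi_le he hm k hv.le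

theorem fD_neg_one {e m : ℝ} (he : 0 < e) : fD e m (-1) = 1 := by
  unfold fD
  have h : ∀ k : ℕ, (-1 : ℂ) ^ k * phi e m (k + 1) (-1) = 0 := by
    intro k
    unfold phi
    rw [add_neg_cancel, zero_div, Complex.zero_cpow (by exact_mod_cast he.ne'), mul_zero, mul_zero]
  simp only [h, tsum_zero, sub_zero]

theorem fD_zero {e m : ℝ} (he : 0 < e) (hm : 1 < m) :
    fD e m 0 = ((m ^ e / (1 + m ^ e) : ℝ) : ℂ) := by
  have hm0 : 0 < m := by linarith
  have hr0 : 0 < m ^ (-e) := Real.rpow_pos_of_pos hm0 _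
  have hr1 : m ^ (-e) < 1 := Real.rpow_lt_one_of_one_lt_of_neg hm (by linarith)
  have hphi : ∀ k : ℕ, (-1 : ℂ) ^ k * phi e m (k + 1) 0 =
      ((m ^ (-e) : ℝ) : ℂ) * (-((m ^ (-e) : ℝ) : ℂ)) ^ k := by
    intro k
    have h1 : m ^ (-(e * ((k + 1 : ℕ) : ℝ))) = (m ^ (-e)) ^ (k + 1) := by
      rw [← Real.rpow_natCast, ← Real.rpow_mul hm0.le]
      congr 1
      ring
    unfold phi
    rw [mul_zero, add_zero, div_one, Complex.one_cpow, mul_one, h1, neg_pow]
    push_cast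
    ring
  unfold fD
  simp only [hphi]
  rw [tsum_mul_left, tsum_geometric_of_norm_lt_one (by
    rw [norm_neg, Complex.norm_real, Real.norm_of_nonneg hr0.le]
    exact hr1)]
  have h2 : m ^ e / (1 + m ^ e) = 1 - m ^ (-e) * (1 - -m ^ (-e))⁻¹ := by
    rw [Real.rpow_neg hm0.le]
    have h3 : 0 < m ^ e := Real.rpow_pos_of_pos hm0 _
    have h4 : m ^ e ≠ 0 := h3.ne'
    have h5 : 1 + m ^ e ≠ 0 := by linarith
    have h6 : 1 - -(m ^ e)⁻¹ = (1 + m ^ e) / m ^ e := by
      rw [sub_neg_eq_add, add_div, div_self h4, one_div, add_comm]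
    rw [h6, inv_div]
    field_simp
    ring
  rw [h2]
  push_cast
  ring

/-- `fD(conj v) = conj (fD v)` (for `‖v‖ ≤ 1`). -/
theorem fD_conj {e m : ℝ} (he : 0 < e) (hm : 1 < m) {v : ℂ} (hv : ‖v‖ ≤ 1) :
    fD e m (conj v) = conj (fD e m v) := by
  have hphi : ∀ k : ℕ, phi e m (k + 1) (conj v) = conj (phi e m (k + 1) v) := by
    intro k
    unfold phi
    have harg : ((1 + v) / (1 + (qk m (k + 1) : ℂ) * v)).arg ≠ Real.pi := by
      by_cases hv1 : v = -1
      · rw [hv1, add_neg_cancel, zero_div, Complex.arg_zero]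
        exact Real.pi_pos.ne
      · intro h
        have h1 := (Complex.arg_eq_pi_iff.1 h).1
        have h2 := ratio_re_pos hm k hv hv1
        linarith
    have h3 : (1 + conj v) / (1 + (qk m (k + 1) : ℂ) * conj v) =
        conj ((1 + v) / (1 + (qk m (k + 1) : ℂ) * v)) := by
      simp
    rw [h3, Complex.conj_cpow _ _ harg, map_mul, Complex.conj_ofReal, Complex.conj_ofReal]
  unfold fD
  rw [map_sub, map_one, Complex.conj_tsum]
  congr 1
  refine tsum_congr fun k => ?_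
  rw [hphi, map_mul, map_pow, map_neg, map_one]

/-- Multiplicativity: `phi (j + k) v = phi j v * phi k (q^j v)` on the closed disc; the two
bases have positive real part (or one is `0`), so the principal powers multiply. -/
theorem phi_add {e m : ℝ} (he : 0 < e) (hm : 1 < m) (k : ℕ) {v : ℂ} (hv : ‖v‖ ≤ 1)
    (hv1 : v ≠ -1) :
    phi e m (k + 2) v = phi e m 1 v * phi e m (k + 1) ((qk m 1 : ℂ) * v) := by
  have hm0 : 0 < m := by linarith
  have hqv : ‖(qk m 1 : ℂ) * v‖ < 1 := by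
    rw [norm_mul, Complex.norm_real, Real.norm_of_nonneg (qk_pos hm _).le]
    have h1 : qk m 1 < 1 := by
      have := qk_succ_lt_one hm 0
      simpa using this
    have h2 := qk_pos hm 1
    nlinarith [norm_nonneg v]
  have hqv1 : (qk m 1 : ℂ) * v ≠ -1 := by
    intro h
    rw [h, norm_neg, norm_one] at hqv
    exact lt_irrefl _ hqv
  have r1 := ratio_re_pos hm 0 hv hv1
  have r2 := ratio_re_pos hm k hqv.le hqv1
  have n1 := one_add_qk_mul_ne hm 0 hv
  have n2 := one_add_qk_mul_ne hm k hqv.le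
  rw [zero_add] at r1 n1
  have hq : (qk m (k + 2) : ℂ) * v = (qk m (k + 1) : ℂ) * ((qk m 1 : ℂ) * v) := by
    rw [show k + 2 = (k + 1) + 1 from rfl, qk_add m (k + 1) 1]
    push_cast
    ring
  have hc : m ^ (-(e * ((k + 2 : ℕ) : ℝ))) =
      m ^ (-(e * ((1 : ℕ) : ℝ))) * m ^ (-(e * ((k + 1 : ℕ) : ℝ))) := by
    rw [← Real.rpow_add hm0]
    congr 1
    push_cast
    ring
  unfold phi
  rw [hq, hc]
  set z1 := (1 + v) / (1 + (qk m 1 : ℂ) * v) with hz1
  set z2 := (1 + (qk m 1 : ℂ) * v) / (1 + (qk m (k + 1) : ℂ) * ((qk m 1 : ℂ) * v)) with hz2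
  have hz : (1 + v) / (1 + (qk m (k + 1) : ℂ) * ((qk m 1 : ℂ) * v)) = z1 * z2 := by
    rw [hz1, hz2, div_mul_div_cancel₀ n1]
  have hz10 : z1 ≠ 0 := by
    intro h
    rw [h] at r1
    simp at r1
  have hz20 : z2 ≠ 0 := by
    intro h
    rw [h] at r2
    simp at r2
  have a1 := Complex.abs_arg_lt_pi_div_two_iff.2 (Or.inl r1)
  have a2 := Complex.abs_arg_lt_pi_div_two_iff.2 (Or.inl r2)
  rw [abs_lt] at a1 a2
  have hlog : Complex.log (z1 * z2) = Complex.log z1 + Complex.log z2 :=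
    Complex.log_mul hz10 hz20 ⟨by linarith [a1.1, a2.1], by linarith [a1.2, a2.2]⟩
  have hpow : (z1 * z2) ^ (e : ℂ) = z1 ^ (e : ℂ) * z2 ^ (e : ℂ) := by
    rw [Complex.cpow_def_of_ne_zero (mul_ne_zero hz10 hz20), Complex.cpow_def_of_ne_zero hz10,
      Complex.cpow_def_of_ne_zero hz20, hlog, ← Complex.exp_add]
    congr 1
    ring
  rw [hz, hpow]
  push_cast
  ring

/-- The functional equation `f(ζ) = 1 - a(ζ) f(ζ+1)`, `a(ζ) = F(ζ+1)/F(ζ)`. -/
theorem fD_eq {e m : ℝ} (he : 0 < e) (hm : 1 < m) {v : ℂ} (hv : ‖v‖ ≤ 1) (hv1 : v ≠ -1) :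
    fD e m v = 1 - phi e m 1 v * fD e m ((qk m 1 : ℂ) * v) := by
  have hqv : ‖(qk m 1 : ℂ) * v‖ ≤ 1 := by
    rw [norm_mul, Complex.norm_real, Real.norm_of_nonneg (qk_pos hm _).le]
    have h1 := qk_le_one hm 1
    have h2 := qk_pos hm 1
    nlinarith [norm_nonneg v]
  have hs : Summable fun k : ℕ => (-1 : ℂ) ^ k * phi e m (k + 1) v := by
    refine Summable.of_norm ?_
    refine (summable_norm_phi he hm hv).congr fun k => ?_
    rw [norm_mul, norm_pow, norm_neg, norm_one, one_pow, one_mul]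
  unfold fD
  rw [hs.tsum_eq_zero_add, pow_zero, one_mul, zero_add]
  have h1 : ∀ k : ℕ, (-1 : ℂ) ^ (k + 1) * phi e m (k + 1 + 1) v =
      - phi e m 1 v * ((-1) ^ k * phi e m (k + 1) ((qk m 1 : ℂ) * v)) := by
    intro k
    rw [show k + 1 + 1 = k + 2 from rfl, phi_add he hm k hv hv1, pow_succ]
    ring
  simp only [h1]
  rw [tsum_mul_left]
  ring

end Pool.Agent.helper12.EQL
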