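import Mathlib

/-!
# EQL-2: from positive definite sums to the real part of the one sided sum
-/

namespace Pool.Agent.helper12.EQL

open Set Metric Filter Topology ComplexConjugate

/-- Toeplitz sum.  Induction on `N`: the new terms `k = N` or `l = N` are
`∑ l < N, φ (N - l) + ∑ k < N, conj (φ (N - k)) + φ 0`, real part
`2 ∑_{j=1}^{N} re φ j + re φ 0`. -/
theorem toeplitz_sum (φ : ℕ → ℂ) (Φ : ℕ → ℕ → ℂ) (h1 : ∀ j l, Φ (l + j) l = φ j)
    (h2 : ∀ j l, Φ l (l + j) = conj (φ j)) (N : ℕ) :
    (∑ k ∈ Finset.range N, ∑ l ∈ Finset.range N, Φ k l).re =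
      2 * ∑ j ∈ Finset.range N, ((N : ℝ) - j) * (φ j).re - N * (φ 0).re := by
  have hN : ∀ N : ℕ, ∀ l ∈ Finset.range N, Φ N l = φ (N - l) := by
    intro N l hl
    have hl' : l < N := Finset.mem_range.1 hl
    have := h1 (N - l) l
    rwa [Nat.add_sub_cancel' hl'.le] at this
  have hN2 : ∀ N : ℕ, ∀ l ∈ Finset.range N, Φ l N = conj (φ (N - l)) := by
    intro N l hl
    have hl' : l < N := Finset.mem_range.1 hl
    have := h2 (N - l) l
    rwa [Nat.add_sub_cancel' hl'.le] at this
  have hrefl : ∀ N : ℕ, ∑ l ∈ Finset.range N, (φ (N - l)).re =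
      ∑ j ∈ Finset.range N, (φ (j + 1)).re := by
    intro N
    rw [← Finset.sum_range_reflect]
    refine Finset.sum_congr rfl fun j hj => ?_
    have hj' : j < N := Finset.mem_range.1 hj
    congr 2
    omega
  induction N with
  | zero => simp
  | succ N ih =>
    have e1 : ∑ k ∈ Finset.range (N + 1), ∑ l ∈ Finset.range (N + 1), Φ k l =
        (∑ k ∈ Finset.range N, ∑ l ∈ Finset.range N, Φ k l) +
          (∑ k ∈ Finset.range N, Φ k N) + ((∑ l ∈ Finset.range N, Φ N l) + Φ N N) := by
      rw [Finset.sum_range_succ, Finset.sum_range_succ (fun l => Φ N l)]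
      congr 1
      rw [← Finset.sum_add_distrib]
      exact Finset.sum_congr rfl fun k _ => Finset.sum_range_succ _ _
    have e2 : (∑ k ∈ Finset.range N, Φ k N).re = ∑ j ∈ Finset.range N, (φ (j + 1)).re := by
      rw [Finset.sum_congr rfl (hN2 N), Complex.re_sum, ← hrefl N]
      exact Finset.sum_congr rfl fun k _ => Complex.conj_re _
    have e3 : (∑ l ∈ Finset.range N, Φ N l).re = ∑ j ∈ Finset.range N, (φ (j + 1)).re := by
      rw [Finset.sum_congr rfl (hN N), Complex.re_sum, ← hrefl N]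
    have e4 : Φ N N = φ 0 := by simpa using h1 0 N
    have e5 : ∑ j ∈ Finset.range (N + 1), (((N + 1 : ℕ) : ℝ) - j) * (φ j).re =
        ∑ j ∈ Finset.range N, ((N : ℝ) - j) * (φ j).re +
          ∑ j ∈ Finset.range (N + 1), (φ j).re := by
      rw [Finset.sum_range_succ, Finset.sum_range_succ (fun j => (φ j).re), ← add_assoc,
        ← Finset.sum_add_distrib]
      congr 1
      · refine Finset.sum_congr rfl fun j _ => ?_
        push_cast
        ring
      · push_cast
        ring
    have e6 : ∑ j ∈ Finset.range (N + 1), (φ j).re =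
        ∑ j ∈ Finset.range N, (φ (j + 1)).re + (φ 0).re := Finset.sum_range_succ' _ _
    rw [e1, Complex.add_re, Complex.add_re, Complex.add_re, ih, e2, e3, e4, e5, e6]
    push_cast
    ring

/-- Cesaro limit: `(1/N) ∑_{j<N} (N - j) ψ j → ∑ ψ` for absolutely summable `ψ`
(`tendsto_tsum_of_dominated_convergence` with `F N j = if j < N then (1 - j/N) ψ j else 0`). -/
theorem fejer_limit {ψ : ℕ → ℝ} (hψ : Summable fun j => |ψ j|) :
    Tendsto (fun N : ℕ => (∑ j ∈ Finset.range N, ((N : ℝ) - j) * ψ j) / N) atTop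
      (𝓝 (∑' j, ψ j)) := by
  have hlim : Tendsto (fun N : ℕ => ∑' j : ℕ, (if j < N then (1 - (j : ℝ) / N) * ψ j else 0)) atTop
      (𝓝 (∑' j, ψ j)) := by
    refine tendsto_tsum_of_dominated_convergence (bound := fun j => |ψ j|) hψ ?_ ?_
    · intro j
      have h1 : Tendsto (fun N : ℕ => (1 - (j : ℝ) / N) * ψ j) atTop (𝓝 ((1 - 0) * ψ j)) :=
        (tendsto_const_nhds.sub (tendsto_const_div_atTop_nhds_zero_nat (j : ℝ))).mul_const _
      rw [sub_zero, one_mul] at h1
      refine h1.congr' ?_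
      filter_upwards [eventually_gt_atTop j] with N hN
      rw [if_pos hN]
    · refine Eventually.of_forall fun N j => ?_
      split_ifs with h
      · rw [Real.norm_eq_abs, abs_mul]
        have hN : (0 : ℝ) < N := by exact_mod_cast (Nat.zero_le j).trans_lt h
        have h0 : 0 ≤ (j : ℝ) / N := by positivity
        have h1 : (j : ℝ) / N ≤ 1 := by
          rw [div_le_one hN]
          exact_mod_cast h.le
        have h2 : |1 - (j : ℝ) / N| ≤ 1 := by
          rw [abs_le]
          constructor <;> linarith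
        calc |1 - (j : ℝ) / N| * |ψ j| ≤ 1 * |ψ j| :=
              mul_le_mul_of_nonneg_right h2 (abs_nonneg _)
          _ = |ψ j| := one_mul _
      · simp
  refine hlim.congr fun N => ?_
  rw [tsum_eq_sum (s := Finset.range N) (fun j hj => if_neg fun h => hj (Finset.mem_range.2 h)),
    Finset.sum_div]
  refine Finset.sum_congr rfl fun j hj => ?_
  have hj' : j < N := Finset.mem_range.1 hj
  have hN : (N : ℝ) ≠ 0 := by
    have : 0 < N := (Nat.zero_le j).trans_lt hj'
    positivity
  rw [if_pos hj']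
  field_simp

/-- If all Toeplitz sums have real part `≥ 0` and `φ 0 = 1`, then `re ∑ φ j ≥ 1/2`. -/
theorem half_le_re_tsum {φ : ℕ → ℂ} {Φ : ℕ → ℕ → ℂ} (h0 : φ 0 = 1)
    (h1 : ∀ j l, Φ (l + j) l = φ j) (h2 : ∀ j l, Φ l (l + j) = conj (φ j))
    (hs : Summable fun j => ‖φ j‖)
    (hpos : ∀ N : ℕ, 0 ≤ (∑ k ∈ Finset.range N, ∑ l ∈ Finset.range N, Φ k l).re) :
    1 / 2 ≤ (∑' j, φ j).re := by
  have hre : Summable fun j => |(φ j).re| :=
    Summable.of_nonneg_of_le (fun _ => abs_nonneg _) (fun j => Complex.abs_re_le_norm (φ j)) hs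
  have hlim := fejer_limit hre
  have hcs : Summable φ := hs.of_norm
  rw [Complex.re_tsum hcs]
  have hge : ∀ N : ℕ, 0 < N →
      1 / 2 ≤ (∑ j ∈ Finset.range N, ((N : ℝ) - j) * (φ j).re) / N := by
    intro N hN
    have hN' : (0 : ℝ) < N := by exact_mod_cast hN
    have h := hpos N
    rw [toeplitz_sum φ Φ h1 h2 N, h0, Complex.one_re, mul_one] at h
    rw [le_div_iff₀ hN']
    linarith
  refine ge_of_tendsto hlim ?_
  filter_upwards [eventually_gt_atTop 0] with N hN
  exact hge N hN

end Pool.Agent.helper12.EQL
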