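import Mathlib

/-!
# EQL-5: Schwarz-Pick for functions with positive real part on the right half plane
-/

namespace Pool.Agent.helper12.EQL

open Set Metric Filter Topology ComplexConjugate

private theorem halfPlane_norm_sq (a b : ℂ) :
    ‖a + conj b‖ ^ 2 = ‖a - b‖ ^ 2 + 4 * a.re * b.re := by
  rw [← Complex.normSq_eq_norm_sq, ← Complex.normSq_eq_norm_sq, Complex.normSq_apply,
    Complex.normSq_apply]
  simp
  ring

private theorem halfPlane_norm_lt {a b : ℂ} (ha : 0 < a.re) (hb : 0 < b.re) :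
    ‖a - b‖ < ‖a + conj b‖ := by
  have h := halfPlane_norm_sq a b
  have h2 : 0 < a.re * b.re := mul_pos ha hb
  exact lt_of_pow_lt_pow_left₀ 2 (norm_nonneg _) (by nlinarith)

/-- **Schwarz-Pick** on the right half plane.  Cayley transform: `g = (p - p w)/(p + conj (p w))`
composed with `u ↦ (w + u conj w)/(1 - u)` (disc to half plane, `0 ↦ w`), Schwarz lemma
`‖g u‖ ≤ ‖u‖`, with `u = (z - w)/(z + conj w)`. -/
theorem halfPlane_pick {p : ℂ → ℂ} (hp : DifferentiableOn ℂ p {z | 0 < z.re})
    (hre : ∀ z : ℂ, 0 < z.re → 0 < (p z).re) {z w : ℂ} (hz : 0 < z.re) (hw : 0 < w.re) :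
    ‖p z - p w‖ * ‖z + conj w‖ ≤ ‖z - w‖ * ‖p z + conj (p w)‖ := by
  have hpw := hre w hw
  have h1u : ∀ u ∈ ball (0 : ℂ) 1, (1 - u) ≠ 0 := by
    intro u hu h
    rw [mem_ball_zero_iff] at hu
    have h1 : u = 1 := (sub_eq_zero.mp h).symm
    rw [h1] at hu
    simp at hu
  have hφre : ∀ u ∈ ball (0 : ℂ) 1, 0 < ((w + u * conj w) / (1 - u)).re := by
    intro u hu
    have hns : 0 < Complex.normSq (1 - u) := Complex.normSq_pos.mpr (h1u u hu)
    have h2 : ((w + u * conj w) / (1 - u)).re
        = w.re * (1 - Complex.normSq u) / Complex.normSq (1 - u) := by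
      rw [Complex.div_re, ← add_div]
      congr 1
      simp [Complex.normSq_apply]
      ring
    rw [h2]
    rw [mem_ball_zero_iff] at hu
    have h3 : Complex.normSq u < 1 := by
      rw [Complex.normSq_eq_norm_sq]
      nlinarith [norm_nonneg u]
    exact div_pos (mul_pos hw (by linarith)) hns
  have hden : ∀ u ∈ ball (0 : ℂ) 1, p ((w + u * conj w) / (1 - u)) + conj (p w) ≠ 0 := by
    intro u hu h
    have h2 := hre _ (hφre u hu)
    have h3 := congrArg Complex.re h
    simp only [Complex.add_re, Complex.conj_re, Complex.zero_re] at h3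
    linarith
  have hφd : DifferentiableOn ℂ (fun u : ℂ => (w + u * conj w) / (1 - u)) (ball (0 : ℂ) 1) := by
    apply DifferentiableOn.div
    · fun_prop
    · fun_prop
    · exact h1u
  have hpφ : DifferentiableOn ℂ (fun u : ℂ => p ((w + u * conj w) / (1 - u)))
      (ball (0 : ℂ) 1) := hp.comp hφd (fun u hu => hφre u hu)
  have hgd : DifferentiableOn ℂ
      (fun u : ℂ => (p ((w + u * conj w) / (1 - u)) - p w)
        / (p ((w + u * conj w) / (1 - u)) + conj (p w))) (ball (0 : ℂ) 1) := by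
    apply DifferentiableOn.div
    · exact hpφ.sub_const _
    · exact hpφ.add_const _
    · exact hden
  have hmaps : MapsTo (fun u : ℂ => (p ((w + u * conj w) / (1 - u)) - p w)
        / (p ((w + u * conj w) / (1 - u)) + conj (p w))) (ball (0 : ℂ) 1)
      (closedBall (0 : ℂ) 1) := by
    intro u hu
    rw [mem_closedBall_zero_iff, norm_div]
    exact div_le_one_of_le₀ (halfPlane_norm_lt (hre _ (hφre u hu)) hpw).le (norm_nonneg _)
  have hzw : z + conj w ≠ 0 := by
    intro h
    have h3 := congrArg Complex.re h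
    simp only [Complex.add_re, Complex.conj_re, Complex.zero_re] at h3
    linarith
  have hww : w + conj w ≠ 0 := by
    intro h
    have h3 := congrArg Complex.re h
    simp only [Complex.add_re, Complex.conj_re, Complex.zero_re] at h3
    linarith
  have hu : ‖(z - w) / (z + conj w)‖ < 1 := by
    rw [norm_div, div_lt_one (norm_pos_iff.mpr hzw)]
    exact halfPlane_norm_lt hz hw
  have hmain := Complex.norm_le_norm_of_mapsTo_ball hgd hmaps (by simp) hu
  have hφu : (w + (z - w) / (z + conj w) * conj w) / (1 - (z - w) / (z + conj w)) = z := by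
    have h4 : 1 - (z - w) / (z + conj w) = (w + conj w) / (z + conj w) := by
      field_simp
      ring
    have h5 : w + (z - w) / (z + conj w) * conj w = z * (w + conj w) / (z + conj w) := by
      field_simp
      ring
    rw [h4, h5]
    field_simp
  rw [hφu, norm_div, norm_div] at hmain
  have hpz := hre z hz
  have hd : 0 < ‖p z + conj (p w)‖ := by
    rw [norm_pos_iff]
    intro h
    have h3 := congrArg Complex.re h
    simp only [Complex.add_re, Complex.conj_re, Complex.zero_re] at h3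
    linarith
  rwa [div_le_div_iff₀ hd (norm_pos_iff.mpr hzw)] at hmain

/-- Derivative bound `x |p'| ≤ Re p` (divide `halfPlane_pick` by `‖z - w‖` and let `z → w`). -/
theorem halfPlane_deriv {p : ℂ → ℂ} (hp : DifferentiableOn ℂ p {z | 0 < z.re})
    (hre : ∀ z : ℂ, 0 < z.re → 0 < (p z).re) {w : ℂ} (hw : 0 < w.re) :
    ‖deriv p w‖ * w.re ≤ (p w).re := by
  have hpw := hre w hw
  have hopen : IsOpen {z : ℂ | 0 < z.re} := isOpen_lt continuous_const Complex.continuous_re
  have hnhds : {z : ℂ | 0 < z.re} ∈ 𝓝 w := hopen.mem_nhds hw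
  have hda : DifferentiableAt ℂ p w := (hp w hw).differentiableAt hnhds
  have hsl := hasDerivAt_iff_tendsto_slope.mp hda.hasDerivAt
  have hpc : Tendsto p (𝓝[≠] w) (𝓝 (p w)) :=
    hda.continuousAt.tendsto.mono_left nhdsWithin_le_nhds
  have hid : Tendsto (fun z : ℂ => z) (𝓝[≠] w) (𝓝 w) := tendsto_id.mono_left nhdsWithin_le_nhds
  have h1 : Tendsto (fun z => ‖slope p w z‖ * ‖z + conj w‖) (𝓝[≠] w)
      (𝓝 (‖deriv p w‖ * ‖w + conj w‖)) := hsl.norm.mul (hid.add_const _).norm
  have h2 : Tendsto (fun z => ‖p z + conj (p w)‖) (𝓝[≠] w) (𝓝 ‖p w + conj (p w)‖) :=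
    (hpc.add_const _).norm
  have h3 : ‖deriv p w‖ * ‖w + conj w‖ ≤ ‖p w + conj (p w)‖ := by
    refine le_of_tendsto_of_tendsto h1 h2 ?_
    filter_upwards [self_mem_nhdsWithin, mem_nhdsWithin_of_mem_nhds hnhds] with z hz hz'
    have hzne : z - w ≠ 0 := sub_ne_zero.mpr hz
    have h4 := halfPlane_pick hp hre hz' hw
    rw [slope_def_field, norm_div]
    have h5 : 0 < ‖z - w‖ := norm_pos_iff.mpr hzne
    rw [div_mul_eq_mul_div, div_le_iff₀ h5]
    linarith
  rw [Complex.add_conj, Complex.add_conj, Complex.norm_real, Complex.norm_real,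
    Real.norm_of_nonneg (by positivity), Real.norm_of_nonneg (by positivity)] at h3
  linarith

/-- `‖p (w + h) - p w‖ * (|2 re w + h| - |h|) ≤ 2 |h| re (p w)`, for complex `h`: from
`halfPlane_pick` with `z = w + h` and `‖p z + conj (p w)‖ ≤ ‖p z - p w‖ + 2 re (p w)`. -/
theorem halfPlane_shift {p : ℂ → ℂ} (hp : DifferentiableOn ℂ p {z | 0 < z.re})
    (hre : ∀ z : ℂ, 0 < z.re → 0 < (p z).re) {w h : ℂ} (hw : 0 < w.re)
    (hwh : 0 < (w + h).re) :
    ‖p (w + h) - p w‖ * (‖(2 * w.re : ℂ) + h‖ - ‖h‖) ≤ 2 * ‖h‖ * (p w).re := by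
  have hpw := hre w hw
  have h1 := halfPlane_pick hp hre hwh hw
  have h2 : w + h + conj w = (2 * w.re : ℂ) + h := by
    have h3 := Complex.add_conj w
    push_cast at h3
    linear_combination h3
  have h4 : ‖p (w + h) + conj (p w)‖ ≤ ‖p (w + h) - p w‖ + 2 * (p w).re := by
    have h5 : p (w + h) + conj (p w) = (p (w + h) - p w) + (p w + conj (p w)) := by ring
    rw [h5]
    refine (norm_add_le _ _).trans ?_
    rw [Complex.add_conj, Complex.norm_real, Real.norm_of_nonneg (by positivity)]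
  rw [h2, add_sub_cancel_left] at h1
  have h6 := mul_le_mul_of_nonneg_left h4 (norm_nonneg h)
  nlinarith

/-- For real `h ≥ 0`: `‖p (w + h) - p w‖ * re w ≤ h * re (p w)`. -/
theorem halfPlane_shift_real {p : ℂ → ℂ} (hp : DifferentiableOn ℂ p {z | 0 < z.re})
    (hre : ∀ z : ℂ, 0 < z.re → 0 < (p z).re) {w : ℂ} {h : ℝ} (hw : 0 < w.re) (hh : 0 ≤ h) :
    ‖p (w + h) - p w‖ * w.re ≤ h * (p w).re := by
  have hwh : 0 < (w + (h : ℂ)).re := by
    simp only [Complex.add_re, Complex.ofReal_re]
    linarith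
  have h1 := halfPlane_shift hp hre hw hwh
  have h2 : (2 * w.re : ℂ) + (h : ℂ) = ((2 * w.re + h : ℝ) : ℂ) := by push_cast; ring
  rw [h2, Complex.norm_real, Complex.norm_real, Real.norm_of_nonneg (by positivity),
    Real.norm_of_nonneg hh] at h1
  nlinarith

/-- Harnack along horizontals: for `0 < x ≤ x'`, `(x/x') re p(x' + i y) ≤ re p(x + i y)` and
`re p(x' + i y) ≤ (x'/x) re p(x + i y)`. -/
theorem halfPlane_harnack {p : ℂ → ℂ} (hp : DifferentiableOn ℂ p {z | 0 < z.re})
    (hre : ∀ z : ℂ, 0 < z.re → 0 < (p z).re) {w : ℂ} {h : ℝ} (hw : 0 < w.re) (hh : 0 ≤ h) :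
    w.re * (p (w + h)).re ≤ (w.re + h) * (p w).re ∧
      w.re * (p w).re ≤ (w.re + h) * (p (w + h)).re := by
  have hwh : 0 < (w + (h : ℂ)).re := by
    simp only [Complex.add_re, Complex.ofReal_re]
    linarith
  have hle : |(p (w + h)).re - (p w).re| ≤ ‖p (w + h) - p w‖ := by
    rw [← Complex.sub_re]
    exact Complex.abs_re_le_norm _
  have hle' := abs_le.mp hle
  constructor
  · have h1 := halfPlane_shift_real hp hre hw hh
    nlinarith [mul_le_mul_of_nonneg_right hle'.2 hw.le]
  · have hback : w + (h : ℂ) + (-(h : ℂ)) = w := by ring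
    have h1 := halfPlane_shift hp hre (w := w + (h : ℂ)) (h := -(h : ℂ)) hwh
      (by rw [hback]; exact hw)
    rw [hback] at h1
    have h2 : (2 * ((w + (h : ℂ)).re : ℂ)) + -(h : ℂ) = ((2 * w.re + h : ℝ) : ℂ) := by
      simp only [Complex.add_re, Complex.ofReal_re]
      push_cast
      ring
    rw [h2, norm_neg, Complex.norm_real, Complex.norm_real, Real.norm_of_nonneg (by positivity),
      Real.norm_of_nonneg hh, norm_sub_rev] at h1
    nlinarith [mul_le_mul_of_nonneg_right hle'.1 hw.le]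

end Pool.Agent.helper12.EQL
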