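import Mathlib

/-!
# EQL-1: the kernel `(z + conj w)^(-e)` is positive definite on the right half plane
-/

namespace Pool.Agent.helper12.EQL

open Set Metric Filter Topology ComplexConjugate

/-- norm of the integrand -/
private theorem Kernel_norm {s : ℝ} {z : ℂ} {t : ℝ} (ht : 0 < t) :
    ‖(t : ℂ) ^ (s : ℂ) * Complex.exp (-(z * t))‖ = t ^ s * Real.exp (-z.re * t) := by
  rw [norm_mul, Complex.norm_cpow_eq_rpow_re_of_pos ht, Complex.norm_exp]
  simp

private theorem Kernel_cont {s : ℂ} {z : ℂ} :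
    ContinuousOn (fun t : ℝ => (t : ℂ) ^ s * Complex.exp (-(z * t))) (Ioi 0) := by
  intro t ht
  refine ContinuousAt.continuousWithinAt ?_
  have h1 : ContinuousAt (fun t : ℝ => (t : ℂ) ^ s) t :=
    Complex.continuousAt_ofReal_cpow_const t s (Or.inr (ne_of_gt ht))
  exact h1.mul (by fun_prop)

private theorem Kernel_real {s b : ℝ} (hs : -1 < s) (hb : 0 < b) :
    MeasureTheory.IntegrableOn (fun t : ℝ => t ^ s * Real.exp (-b * t)) (Ioi 0) := by
  have h := integrableOn_rpow_mul_exp_neg_mul_rpow hs one_pos hb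
  simpa only [Real.rpow_one] using h

private theorem Kernel_int {s : ℝ} (hs : -1 < s) {z : ℂ} (hz : 0 < z.re) :
    MeasureTheory.IntegrableOn (fun t : ℝ => (t : ℂ) ^ (s : ℂ) * Complex.exp (-(z * t)))
      (Ioi 0) := by
  refine (Kernel_real hs hz).mono' (Kernel_cont.aestronglyMeasurable measurableSet_Ioi) ?_
  filter_upwards [MeasureTheory.ae_restrict_mem measurableSet_Ioi] with t ht
  rw [Kernel_norm ht]

private theorem Kernel_diff {e : ℝ} (he : 0 < e) {z : ℂ} (hz : 0 < z.re) :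
    DifferentiableAt ℂ (fun z : ℂ => ∫ t in Ioi (0 : ℝ),
      (t : ℂ) ^ ((e : ℂ) - 1) * Complex.exp (-(z * t))) z := by
  have hcast : ((e : ℂ) - 1) = ((e - 1 : ℝ) : ℂ) := by push_cast; ring
  have hb : 0 < z.re / 2 := by linarith
  have h := hasDerivAt_integral_of_dominated_loc_of_deriv_le
    (μ := MeasureTheory.volume.restrict (Ioi (0 : ℝ)))
    (F := fun (z : ℂ) (t : ℝ) => (t : ℂ) ^ ((e : ℂ) - 1) * Complex.exp (-(z * t)))
    (F' := fun (z : ℂ) (t : ℝ) =>
      (t : ℂ) ^ ((e : ℂ) - 1) * (Complex.exp (-(z * t)) * (-(1 * (t : ℂ)))))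
    (x₀ := z) (s := ball z (z.re / 2)) (bound := fun t => t ^ e * Real.exp (-(z.re / 2) * t))
    (ball_mem_nhds z hb) ?_ ?_ ?_ ?_ ?_ ?_
  · exact h.2.differentiableAt
  · filter_upwards with w
    exact Kernel_cont.aestronglyMeasurable measurableSet_Ioi
  · rw [hcast]
    exact Kernel_int (by linarith) hz
  · refine ContinuousOn.aestronglyMeasurable ?_ measurableSet_Ioi
    have h2 : ContinuousOn (fun t : ℝ => ((t : ℂ) ^ ((e : ℂ) - 1) * Complex.exp (-(z * t))) *
        (-(1 * (t : ℂ)))) (Ioi 0) := Kernel_cont.mul (by fun_prop)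
    refine h2.congr fun t _ => ?_
    ring
  · filter_upwards [MeasureTheory.ae_restrict_mem measurableSet_Ioi] with t ht w hw
    have ht0 : (0 : ℝ) < t := ht
    have hre : z.re / 2 ≤ w.re := by
      have h3 : |(w - z).re| ≤ ‖w - z‖ := Complex.abs_re_le_norm _
      have h4 : ‖w - z‖ < z.re / 2 := by simpa [dist_eq_norm] using hw
      have h5 := (abs_le.1 (h3.trans h4.le)).1
      rw [Complex.sub_re] at h5
      linarith
    have e1 : (t : ℂ) ^ ((e : ℂ) - 1) * (Complex.exp (-(w * t)) * (-(1 * (t : ℂ)))) =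
        ((t : ℂ) ^ (((e - 1 : ℝ)) : ℂ) * Complex.exp (-(w * t))) * (-(t : ℂ)) := by
      rw [hcast]; ring
    rw [e1, norm_mul, Kernel_norm ht0, norm_neg, Complex.norm_real, Real.norm_eq_abs,
      abs_of_pos ht0]
    have e2 : t ^ (e - 1) * Real.exp (-w.re * t) * t = t ^ e * Real.exp (-w.re * t) := by
      have : t ^ e = t ^ (e - 1) * t := by
        rw [← Real.rpow_add_one ht0.ne']; congr 1; ring
      rw [this]; ring
    rw [e2]
    refine mul_le_mul_of_nonneg_left ?_ (Real.rpow_nonneg ht0.le _)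
    apply Real.exp_le_exp.2
    nlinarith
  · exact Kernel_real (by linarith) hb
  · filter_upwards with t w _
    have h3 : HasDerivAt (fun w : ℂ => -(w * (t : ℂ))) (-(1 * (t : ℂ))) w :=
      ((hasDerivAt_id w).mul_const (t : ℂ)).neg
    exact h3.cexp.const_mul _

/-- Laplace transform.  Use `Complex.integral_cpow_mul_exp_neg_mul_Ioi` with `a = e`, `r = z`:
`∫ t^(e-1) exp(-(z t)) = (1/z)^e Γ(e)`, and `(1/z)^e = z^(-e)` because `arg z ≠ π`
(`Complex.inv_cpow`, `Complex.cpow_neg`). -/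
theorem laplace_cpow {e : ℝ} (he : 0 < e) {z : ℂ} (hz : 0 < z.re) :
    ∫ t in Ioi (0 : ℝ), (t : ℂ) ^ ((e : ℂ) - 1) * Complex.exp (-(z * t)) =
      z ^ (-(e : ℂ)) * Complex.Gamma e := by
  have hopen : IsOpen {z : ℂ | 0 < z.re} := isOpen_lt continuous_const Complex.continuous_re
  have hconn : IsPreconnected {z : ℂ | 0 < z.re} :=
    (convex_halfSpace_re_gt 0).isPreconnected
  have hF : AnalyticOnNhd ℂ (fun z : ℂ => ∫ t in Ioi (0 : ℝ),
      (t : ℂ) ^ ((e : ℂ) - 1) * Complex.exp (-(z * t))) {z : ℂ | 0 < z.re} :=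
    DifferentiableOn.analyticOnNhd
      (fun w hw => (Kernel_diff he hw).differentiableWithinAt) hopen
  have hG : AnalyticOnNhd ℂ (fun z : ℂ => z ^ (-(e : ℂ)) * Complex.Gamma e)
      {z : ℂ | 0 < z.re} := by
    refine DifferentiableOn.analyticOnNhd (fun w hw => ?_) hopen
    refine DifferentiableAt.differentiableWithinAt ?_
    exact ((differentiableAt_id.cpow_const (Or.inl hw)).mul_const _)
  have hre : ∀ r : ℝ, 0 < r → (∫ t in Ioi (0 : ℝ),
      (t : ℂ) ^ ((e : ℂ) - 1) * Complex.exp (-((r : ℂ) * t))) =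
      (r : ℂ) ^ (-(e : ℂ)) * Complex.Gamma e := by
    intro r hr
    rw [Complex.integral_cpow_mul_exp_neg_mul_Ioi (by simpa using he) hr, one_div,
      Complex.inv_cpow _ _ (by rw [Complex.arg_ofReal_of_nonneg hr.le]; exact Real.pi_pos.ne),
      Complex.cpow_neg]
  have hfreq : ∃ᶠ z in 𝓝[≠] (1 : ℂ), (fun z : ℂ => ∫ t in Ioi (0 : ℝ),
      (t : ℂ) ^ ((e : ℂ) - 1) * Complex.exp (-(z * t))) z =
      (fun z : ℂ => z ^ (-(e : ℂ)) * Complex.Gamma e) z := by
    have ht : Tendsto (fun r : ℝ => (r : ℂ)) (𝓝[≠] (1 : ℝ)) (𝓝[≠] (1 : ℂ)) := by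
      refine tendsto_nhdsWithin_iff.2 ⟨?_, ?_⟩
      · have h1 : Tendsto (fun r : ℝ => (r : ℂ)) (𝓝 (1 : ℝ)) (𝓝 ((1 : ℝ) : ℂ)) :=
          Complex.continuous_ofReal.tendsto 1
        rw [Complex.ofReal_one] at h1
        exact h1.mono_left nhdsWithin_le_nhds
      · filter_upwards [self_mem_nhdsWithin] with r hr
        intro h
        apply hr
        simpa using h
    refine ht.frequently ?_
    refine Eventually.frequently ?_
    have hpos : ∀ᶠ r in 𝓝[≠] (1 : ℝ), 0 < r :=
      nhdsWithin_le_nhds (lt_mem_nhds one_pos)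
    filter_upwards [hpos] with r hr
    exact hre r hr
  have h := hF.eqOn_of_preconnected_of_frequently_eq hG hconn
    (z₀ := 1) (by simp) hfreq
  exact h hz

/-- **Positive definiteness.**  Multiply by `Γ(e) > 0`; by `laplace_cpow` with `z k + conj (z l)`
the sum is `∫ t^(e-1) |∑ k, c k exp(-(z k) t)|² dt ≥ 0` (interchange of a finite sum with the
integral; integrability: `integrable` part is in Mathlib next to
`Complex.integral_cpow_mul_exp_neg_mul_Ioi`, or use
`Real.GammaIntegral_convergent`-type results: norm of the integrand is `t^(e-1) exp(-(re z) t)`,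
`Real.integrableOn_rpow_mul_exp_neg_mul_rpow`/`integrableOn_rpow_mul_exp_neg_mul_sq` family or
`Real.GammaIntegral_convergent` after scaling). -/
theorem kernel_pos {e : ℝ} (he : 0 < e) (N : ℕ) (z c : ℕ → ℂ) (hz : ∀ k, 0 < (z k).re) :
    0 ≤ (∑ k ∈ Finset.range N, ∑ l ∈ Finset.range N,
      c k * conj (c l) * (z k + conj (z l)) ^ (-(e : ℂ))).re := by
  have hcast : ((e : ℂ) - 1) = ((e - 1 : ℝ) : ℂ) := by push_cast; ring
  have hzz : ∀ k l, 0 < (z k + conj (z l)).re := by
    intro k l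
    rw [Complex.add_re, Complex.conj_re]
    linarith [hz k, hz l]
  have hGpos : 0 < Real.Gamma e := Real.Gamma_pos_of_pos he
  have hint : ∀ k l, MeasureTheory.IntegrableOn (fun t : ℝ => c k * conj (c l) *
      ((t : ℂ) ^ ((e : ℂ) - 1) * Complex.exp (-((z k + conj (z l)) * t)))) (Ioi 0) := by
    intro k l
    rw [hcast]
    exact (Kernel_int (by linarith) (hzz k l)).const_mul _
  have key : (∑ k ∈ Finset.range N, ∑ l ∈ Finset.range N,
      c k * conj (c l) * (z k + conj (z l)) ^ (-(e : ℂ))) * (Real.Gamma e : ℂ) =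
      ((∫ t in Ioi (0 : ℝ), t ^ (e - 1) *
        ‖∑ k ∈ Finset.range N, c k * Complex.exp (-(z k * t))‖ ^ 2 : ℝ) : ℂ) := by
    have e1 : (∑ k ∈ Finset.range N, ∑ l ∈ Finset.range N,
        c k * conj (c l) * (z k + conj (z l)) ^ (-(e : ℂ))) * (Real.Gamma e : ℂ) =
        ∑ k ∈ Finset.range N, ∑ l ∈ Finset.range N, ∫ t in Ioi (0 : ℝ),
          c k * conj (c l) *
            ((t : ℂ) ^ ((e : ℂ) - 1) * Complex.exp (-((z k + conj (z l)) * t))) := by
      rw [Finset.sum_mul]
      refine Finset.sum_congr rfl fun k _ => ?_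
      rw [Finset.sum_mul]
      refine Finset.sum_congr rfl fun l _ => ?_
      rw [MeasureTheory.integral_const_mul, laplace_cpow he (hzz k l), ← Complex.Gamma_ofReal]
      ring
    rw [e1]
    have e2 : ∀ k ∈ Finset.range N, (∑ l ∈ Finset.range N, ∫ t in Ioi (0 : ℝ),
          c k * conj (c l) *
            ((t : ℂ) ^ ((e : ℂ) - 1) * Complex.exp (-((z k + conj (z l)) * t)))) =
        ∫ t in Ioi (0 : ℝ), ∑ l ∈ Finset.range N, c k * conj (c l) *
            ((t : ℂ) ^ ((e : ℂ) - 1) * Complex.exp (-((z k + conj (z l)) * t))) := by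
      intro k _
      rw [MeasureTheory.integral_finsetSum]
      exact fun l _ => hint k l
    rw [Finset.sum_congr rfl e2, ← MeasureTheory.integral_finsetSum]
    · rw [← integral_complex_ofReal]
      refine MeasureTheory.setIntegral_congr_fun measurableSet_Ioi fun t ht => ?_
      have ht0 : (0 : ℝ) < t := ht
      have e3 : (t : ℂ) ^ ((e : ℂ) - 1) = ((t ^ (e - 1) : ℝ) : ℂ) := by
        rw [hcast, Complex.ofReal_cpow ht0.le]
      have e4 : ((‖∑ k ∈ Finset.range N, c k * Complex.exp (-(z k * t))‖ ^ 2 : ℝ) : ℂ) =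
          (∑ k ∈ Finset.range N, c k * Complex.exp (-(z k * t))) *
          conj (∑ l ∈ Finset.range N, c l * Complex.exp (-(z l * t))) := by
        rw [Complex.mul_conj, Complex.normSq_eq_norm_sq]
      show (∑ k ∈ Finset.range N, ∑ l ∈ Finset.range N, c k * conj (c l) *
            ((t : ℂ) ^ ((e : ℂ) - 1) * Complex.exp (-((z k + conj (z l)) * t)))) =
        ((t ^ (e - 1) *
        ‖∑ k ∈ Finset.range N, c k * Complex.exp (-(z k * t))‖ ^ 2 : ℝ) : ℂ)
      rw [Complex.ofReal_mul, e4, map_sum, Finset.sum_mul_sum, e3, Finset.mul_sum]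
      refine Finset.sum_congr rfl fun k _ => ?_
      rw [Finset.mul_sum]
      refine Finset.sum_congr rfl fun l _ => ?_
      rw [map_mul, ← Complex.exp_conj, map_neg, map_mul, Complex.conj_ofReal]
      have e5 : -((z k + conj (z l)) * (t : ℂ)) = -(z k * t) + -(conj (z l) * t) := by ring
      rw [e5, Complex.exp_add]
      ring
    · intro k _
      exact MeasureTheory.integrable_finsetSum _ fun l _ => hint k l
  have h2 := congrArg Complex.re key
  rw [Complex.re_mul_ofReal, Complex.ofReal_re] at h2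
  have h3 : 0 ≤ ∫ t in Ioi (0 : ℝ), t ^ (e - 1) *
        ‖∑ k ∈ Finset.range N, c k * Complex.exp (-(z k * t))‖ ^ 2 := by
    refine MeasureTheory.setIntegral_nonneg measurableSet_Ioi fun t ht => ?_
    have ht0 : (0 : ℝ) < t := ht
    positivity
  rw [← h2] at h3
  exact nonneg_of_mul_nonneg_left h3 hGpos

end Pool.Agent.helper12.EQL
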