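import Pool.Agent.helper12.EQL.Kernel
import Pool.Agent.helper12.EQL.Fejer
import Pool.Agent.helper12.EQL.DiscSum

/-!
# EQL-4: Lemma A, `Re f > 1/2`
-/

namespace Pool.Agent.helper12.EQL

open Set Metric Filter Topology ComplexConjugate

/-- On the unit circle, `v ≠ -1`: `w = 1/(1+v)` has `re w = 1/2`, i.e. `1 - w = conj w`, and
`(1+v)/(1+q^k v) = 1/(w + q^k conj w)`. -/
theorem circle_w {v : ℂ} (hv : ‖v‖ = 1) (hv1 : v ≠ -1) :
    (1 / (1 + v)).re = 1 / 2 ∧ 1 - 1 / (1 + v) = conj (1 / (1 + v)) := by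
  have h0 : 1 + v ≠ 0 := fun h => hv1 (by linear_combination h)
  have hsq : v.re * v.re + v.im * v.im = 1 := by
    have h := Complex.normSq_eq_norm_sq v
    rw [hv, Complex.normSq_apply] at h
    simpa using h
  have hN : Complex.normSq (1 + v) = 2 * (1 + v).re := by
    rw [Complex.normSq_apply]
    simp only [Complex.add_re, Complex.one_re, Complex.add_im, Complex.one_im]
    linear_combination hsq
  have hNpos : 0 < Complex.normSq (1 + v) := Complex.normSq_pos.2 h0
  have hre : (1 / (1 + v)).re = 1 / 2 := by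
    rw [one_div, Complex.inv_re, hN]
    have h2 : (1 + v).re ≠ 0 := by
      intro h2
      rw [hN, h2] at hNpos
      simp at hNpos
    field_simp
  refine ⟨hre, ?_⟩
  apply Complex.ext
  · rw [Complex.sub_re, Complex.conj_re, hre, Complex.one_re]
    norm_num
  · rw [Complex.sub_im, Complex.conj_im, Complex.one_im]
    ring

private theorem LemmaA_arg_ne_pi {x : ℂ} (hx : 0 < x.re) : x.arg ≠ Real.pi := by
  intro h
  have h1 := (Complex.arg_eq_pi_iff.1 h).1
  linarith

/-- Principal powers of a positive multiple. -/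
private theorem LemmaA_mul_cpow {r : ℝ} (hr : 0 < r) {x : ℂ} (hx : x ≠ 0) (s : ℂ) :
    ((r : ℂ) * x) ^ s = (r : ℂ) ^ s * x ^ s := by
  have hr' : (r : ℂ) ≠ 0 := Complex.ofReal_ne_zero.2 hr.ne'
  rw [Complex.cpow_def_of_ne_zero (mul_ne_zero hr' hx), Complex.cpow_def_of_ne_zero hr',
    Complex.cpow_def_of_ne_zero hx, Complex.log_ofReal_mul hr hx, ← Complex.exp_add,
    Complex.ofReal_log hr.le]
  congr 1
  ring

/-- With `z k = m^(2k) w`: `m^(e(k+l)) (z k + conj (z l))^(-e) = (-1)^? phi` for `k ≥ l`: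
`(z (l+j) + conj (z l))^(-e) = m^(-2 e (l+j)) (w + q^j conj w)^(-e)` (positive real factor:
`Complex.real_smul`/`Complex.mul_cpow_ofReal_nonneg`), and
`m^(e(2l+j)) m^(-2e(l+j)) = m^(-e j)`. -/
theorem kernel_eq_phi {e m : ℝ} (he : 0 < e) (hm : 1 < m) {v : ℂ} (hv : ‖v‖ = 1)
    (hv1 : v ≠ -1) (j l : ℕ) :
    ((m ^ (e * ((l + j : ℕ) + l : ℝ)) : ℝ) : ℂ) *
      (((m ^ (2 * (l + j)) : ℝ) : ℂ) * (1 / (1 + v)) +
        conj (((m ^ (2 * l) : ℝ) : ℂ) * (1 / (1 + v)))) ^ (-(e : ℂ)) = phi e m j v := by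
  have hm0 : 0 < m := lt_trans one_pos hm
  have h0 : 1 + v ≠ 0 := fun h => hv1 (by linear_combination h)
  obtain ⟨hre, hconj⟩ := circle_w hv hv1
  set w : ℂ := 1 / (1 + v) with hw
  have hq : 0 < qk m j := qk_pos hm j
  -- the base
  have hbase : ((m ^ (2 * (l + j)) : ℝ) : ℂ) * w + conj (((m ^ (2 * l) : ℝ) : ℂ) * w)
      = ((m ^ (2 * (l + j)) : ℝ) : ℂ) * (w + (qk m j : ℂ) * conj w) := by
    have hk : ((m ^ (2 * (l + j)) : ℝ) : ℂ) * (qk m j : ℂ) = ((m ^ (2 * l) : ℝ) : ℂ) := by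
      rw [← Complex.ofReal_mul, qk, mul_add, pow_add, mul_assoc,
        mul_inv_cancel₀ (pow_ne_zero _ hm0.ne'), mul_one]
    rw [map_mul, Complex.conj_ofReal]
    linear_combination (-(conj w)) * hk
  have hxre : 0 < (w + (qk m j : ℂ) * conj w).re := by
    rw [Complex.add_re, Complex.re_ofReal_mul, Complex.conj_re, hre]
    positivity
  have hxne : w + (qk m j : ℂ) * conj w ≠ 0 := by
    intro h
    rw [h] at hxre
    simp at hxre
  have hx : w + (qk m j : ℂ) * conj w = ((1 + v) / (1 + (qk m j : ℂ) * v))⁻¹ := by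
    rw [← hconj, hw, inv_div]
    field_simp
    ring
  have hpos : (0 : ℝ) < m ^ (2 * (l + j)) := pow_pos hm0 _
  have hinv : (w + (qk m j : ℂ) * conj w) ^ (-(e : ℂ))
      = ((1 + v) / (1 + (qk m j : ℂ) * v)) ^ (e : ℂ) := by
    rw [Complex.cpow_neg, ← Complex.inv_cpow _ _ (LemmaA_arg_ne_pi hxre), hx, inv_inv]
  have hreal : m ^ (e * ((l + j : ℕ) + l : ℝ)) * ((m ^ (2 * (l + j)) : ℝ) ^ (-e))
      = m ^ (-(e * j)) := by
    rw [← Real.rpow_natCast m (2 * (l + j)), ← Real.rpow_mul hm0.le, ← Real.rpow_add hm0]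
    congr 1
    push_cast
    ring
  rw [hbase, LemmaA_mul_cpow hpos hxne, hinv, ← mul_assoc, ← Complex.ofReal_neg,
    ← Complex.ofReal_cpow hpos.le, ← Complex.ofReal_mul, hreal, phi]

/-- **Boundary values**: `Re fD ≥ 1/2` on the unit circle.  `half_le_re_tsum` with
`φ j = (-1)^j phi e m j v`, `Φ k l = (-1)^(k+l) m^(e(k+l)) (z k + conj (z l))^(-e)` and
`kernel_pos` with `c k = (-1)^k m^(e k)`; `v = -1` is `fD_neg_one`. -/
theorem half_le_re_fD_sphere {e m : ℝ} (he : 0 < e) (hm : 1 < m) {v : ℂ} (hv : ‖v‖ = 1) :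
    1 / 2 ≤ (fD e m v).re := by
  by_cases hv1 : v = -1
  · rw [hv1, fD_neg_one he, Complex.one_re]
    norm_num
  have hm0 : 0 < m := lt_trans one_pos hm
  have h0 : 1 + v ≠ 0 := fun h => hv1 (by linear_combination h)
  obtain ⟨hre, hconj⟩ := circle_w hv hv1
  have hz : ∀ k : ℕ, 0 < ((((m ^ (2 * k) : ℝ) : ℂ) * (1 / (1 + v)))).re := by
    intro k
    rw [Complex.re_ofReal_mul, hre]
    positivity
  let z : ℕ → ℂ := fun k => ((m ^ (2 * k) : ℝ) : ℂ) * (1 / (1 + v))
  let φ : ℕ → ℂ := fun j => (-1) ^ j * phi e m j v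
  let Φ : ℕ → ℕ → ℂ := fun k l => (-1) ^ (k + l) *
    (((m ^ (e * ((k : ℝ) + l)) : ℝ) : ℂ) * (z k + conj (z l)) ^ (-(e : ℂ)))
  have hφ0 : φ 0 = 1 := by
    simp only [φ, phi, qk]
    simp [div_self h0]
  have h1 : ∀ j l, Φ (l + j) l = φ j := by
    intro j l
    have h := kernel_eq_phi he hm hv hv1 j l
    simp only [Φ, φ, z]
    rw [h]
    congr 1
    rw [show l + j + l = j + 2 * l by ring, pow_add, pow_mul]
    simp
  have h2 : ∀ j l, Φ l (l + j) = conj (φ j) := by
    intro j l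
    rw [← h1 j l]
    simp only [Φ]
    have h6 : conj ((-1 : ℂ) ^ (l + j + l) *
        (((m ^ (e * (((l + j : ℕ) : ℝ) + l)) : ℝ) : ℂ) *
          (z (l + j) + conj (z l)) ^ (-(e : ℂ)))) =
        (-1 : ℂ) ^ (l + j + l) * (((m ^ (e * (((l + j : ℕ) : ℝ) + l)) : ℝ) : ℂ) *
          conj ((z (l + j) + conj (z l)) ^ (-(e : ℂ)))) := by
      rw [map_mul, map_mul, map_pow, map_neg, map_one, Complex.conj_ofReal]
    rw [h6]
    have hp : 0 < (z (l + j) + conj (z l)).re := by
      rw [Complex.add_re, Complex.conj_re]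
      exact add_pos (hz _) (hz _)
    have h3 : conj ((z (l + j) + conj (z l)) ^ (-(e : ℂ)))
        = (z l + conj (z (l + j))) ^ (-(e : ℂ)) := by
      have h4 := Complex.conj_cpow (z (l + j) + conj (z l)) (-(e : ℂ)) (LemmaA_arg_ne_pi hp)
      rw [map_neg, Complex.conj_ofReal] at h4
      rw [← h4, map_add, Complex.conj_conj, add_comm]
    rw [h3, add_comm l (l + j), add_comm ((l : ℕ) : ℝ) ((l + j : ℕ) : ℝ)]
  have hs : Summable fun j => ‖φ j‖ := by
    rw [← summable_nat_add_iff 1]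
    have h := summable_norm_phi he hm hv.le
    refine h.congr fun j => ?_
    simp only [φ]
    rw [norm_mul, norm_pow, norm_neg, norm_one, one_pow, one_mul]
  have hpos : ∀ N : ℕ, 0 ≤ (∑ k ∈ Finset.range N, ∑ l ∈ Finset.range N, Φ k l).re := by
    intro N
    have h := kernel_pos he N z (fun k => (-1) ^ k * ((m ^ (e * k) : ℝ) : ℂ)) hz
    have h5 : ∀ k l : ℕ, (fun k : ℕ => (-1 : ℂ) ^ k * ((m ^ (e * k) : ℝ) : ℂ)) k *
        conj ((fun k : ℕ => (-1 : ℂ) ^ k * ((m ^ (e * k) : ℝ) : ℂ)) l) *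
        (z k + conj (z l)) ^ (-(e : ℂ)) = Φ k l := by
      intro k l
      simp only [Φ]
      rw [map_mul, map_pow, map_neg, map_one, Complex.conj_ofReal, mul_add e, Real.rpow_add hm0,
        Complex.ofReal_mul, pow_add]
      ring
    simp only [h5] at h
    exact h
  have hmain := half_le_re_tsum hφ0 h1 h2 hs hpos
  have hsum : Summable φ := hs.of_norm
  have hf : ∑' j, φ j = fD e m v := by
    rw [hsum.tsum_eq_zero_add, hφ0, fD, sub_eq_add_neg, ← tsum_neg]
    congr 1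
    refine tsum_congr fun k => ?_
    simp only [φ]
    rw [pow_succ]
    ring
  rwa [hf] at hmain

/-- The auxiliary function `exp(1/2 - fD)`. -/
private theorem LemmaA_diffContOnCl {e m : ℝ} (he : 0 < e) (hm : 1 < m) :
    DiffContOnCl ℂ (fun v => Complex.exp (1 / 2 - fD e m v)) (ball (0 : ℂ) 1) := by
  constructor
  · exact ((differentiableOn_const _).sub (differentiableOn_fD he hm)).cexp
  · rw [closure_ball (0 : ℂ) one_ne_zero]
    exact (continuousOn_const.sub (continuousOn_fD he hm)).cexp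

private theorem LemmaA_norm_exp (e m : ℝ) (v : ℂ) :
    ‖Complex.exp (1 / 2 - fD e m v)‖ = Real.exp (1 / 2 - (fD e m v).re) := by
  rw [Complex.norm_exp, Complex.sub_re]
  norm_num

/-- Maximum principle for `exp(1/2 - fD)` on the closed disc
(`Complex.norm_le_of_forall_mem_frontier_norm_le`). -/
theorem half_le_re_fD {e m : ℝ} (he : 0 < e) (hm : 1 < m) {v : ℂ} (hv : ‖v‖ ≤ 1) :
    1 / 2 ≤ (fD e m v).re := by
  have h1 : ‖Complex.exp (1 / 2 - fD e m v)‖ ≤ 1 := by
    refine Complex.norm_le_of_forall_mem_frontier_norm_le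
      (f := fun v => Complex.exp (1 / 2 - fD e m v)) isBounded_ball
      (LemmaA_diffContOnCl he hm) ?_ ?_
    · intro z hz
      rw [frontier_ball (0 : ℂ) one_ne_zero, mem_sphere_zero_iff_norm] at hz
      have h := half_le_re_fD_sphere he hm hz
      rw [LemmaA_norm_exp, Real.exp_le_one_iff]
      linarith
    · rw [closure_ball (0 : ℂ) one_ne_zero, mem_closedBall_zero_iff]
      exact hv
  rw [LemmaA_norm_exp, Real.exp_le_one_iff] at h1
  linarith

/-- **Lemma A.**  Strict inequality inside: otherwise `exp(1/2 - fD)` attains its maximal modulus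
`1` at an interior point, so it is constant on the disc (maximum modulus principle,
`Complex.eqOn_of_isPreconnected_of_isMaxOn_norm`), hence on the closed disc by continuity, but at
`v = -1` the norm is `exp(-1/2)`. -/
theorem half_lt_re_fD {e m : ℝ} (he : 0 < e) (hm : 1 < m) {v : ℂ} (hv : ‖v‖ < 1) :
    1 / 2 < (fD e m v).re := by
  by_contra hcon
  have h1 := half_le_re_fD he hm hv.le
  have h2 : (fD e m v).re = 1 / 2 := le_antisymm (not_lt.1 hcon) h1
  have hvb : v ∈ ball (0 : ℂ) 1 := mem_ball_zero_iff.2 hv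
  have hmax : IsMaxOn (norm ∘ fun v => Complex.exp (1 / 2 - fD e m v)) (ball (0 : ℂ) 1) v := by
    intro z hz
    have h3 := half_le_re_fD he hm (mem_ball_zero_iff.1 hz).le
    simp only [mem_ofPred_eq, Function.comp_apply]
    rw [LemmaA_norm_exp, LemmaA_norm_exp, Real.exp_le_exp, h2]
    linarith
  have heq := Complex.eqOn_closure_of_isPreconnected_of_isMaxOn_norm
    (convex_ball (0 : ℂ) 1).isPreconnected isOpen_ball (LemmaA_diffContOnCl he hm) hvb hmax
  have hmem : (-1 : ℂ) ∈ closure (ball (0 : ℂ) 1) := by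
    rw [closure_ball (0 : ℂ) one_ne_zero, mem_closedBall_zero_iff]
    simp
  have h4 := congrArg norm (heq hmem)
  simp only [Function.const_apply] at h4
  rw [LemmaA_norm_exp, LemmaA_norm_exp, h2, fD_neg_one he, Complex.one_re,
    Real.exp_eq_exp] at h4
  norm_num at h4

/-- `Q = (1-f)/f` has `‖Q‖ < 1`. -/
theorem norm_Q_lt {e m : ℝ} (he : 0 < e) (hm : 1 < m) {v : ℂ} (hv : ‖v‖ < 1) :
    ‖(1 - fD e m v) / fD e m v‖ < 1 := by
  have h1 := half_lt_re_fD he hm hv
  have h0 : fD e m v ≠ 0 := by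
    intro h
    rw [h, Complex.zero_re] at h1
    norm_num at h1
  rw [norm_div, div_lt_one (norm_pos_iff.2 h0)]
  have h2 : ‖1 - fD e m v‖ ^ 2 < ‖fD e m v‖ ^ 2 := by
    rw [← Complex.normSq_eq_norm_sq, ← Complex.normSq_eq_norm_sq, Complex.normSq_apply,
      Complex.normSq_apply, Complex.sub_re, Complex.sub_im, Complex.one_re, Complex.one_im]
    nlinarith
  exact lt_of_pow_lt_pow_left₀ 2 (norm_nonneg _) h2

end Pool.Agent.helper12.EQL
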